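import Pool.Agent.Helper27.EX.IDefs
import Pool.Agent.Helper62.EX.TB
import Pool.Agent.Helper57.EX.FS

/-!
# MP_2857a5_co, module TIS : the tree in the case of many sources

The statement of `treeC` (module TC) is taken as the hypothesis `tis_StTC`.
-/

set_option autoImplicit false

open Finset
open scoped Classical

namespace OT

noncomputable section

/-- The statement of `treeC`. -/
def tis_StTC : Prop := ∀ (Δ R : ℕ) (η : ℝ), 0 < η → ∃ (K : ℕ) (η' : ℝ), 0 < η' ∧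
    ∀ (n : ℕ) (T : PTree n), T.Deg Δ → K ≤ n →
    ∀ kd : Bool → Bool → Bool, (∃ δ s, kd δ s = false) →
    ∀ m : ℤ, |(m : ℝ)| ≤ η' * (n : ℝ) →
    ∀ M : Finset (Fin n), η * (n : ℝ) ≤ (M.card : ℝ) →
    ∃ (side : Fin n → Bool) (Tc : Bool → Finset (Fin n)), TreeC T R kd side Tc ∧
      (∀ δ, (Tc δ).card ≤ K * (Nat.log 2 n + 1)) ∧
      |2 * ((univ.filter fun v => side v = true).card : ℤ) - n - m| ≤ K ∧
      ∀ k, η' * (n : ℝ) ≤ ((M.filter fun v => side v = k).card : ℝ)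

theorem tis_sq_le (l : ℕ) : (l + 1) ^ 2 ≤ 4 * 2 ^ l := by
  induction l with
  | zero => norm_num
  | succ l ih =>
    rcases Nat.lt_or_ge l 2 with h | h
    · interval_cases l <;> norm_num
    · rw [pow_succ 2 l]
      nlinarith

/-- logarithms are small -/
theorem tis_log (c : ℕ) (n : ℕ) (hn : 4 * c ^ 2 + 1 ≤ n) : c * (Nat.log 2 n + 1) ≤ n := by
  have h1 := tis_sq_le (Nat.log 2 n)
  have h2 : 2 ^ (Nat.log 2 n) ≤ n := Nat.pow_log_le_self 2 (by omega)
  set l := Nat.log 2 n + 1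
  rcases Nat.lt_or_ge l (4 * c) with h | h
  · have : c * l ≤ c * (4 * c) := Nat.mul_le_mul_left _ h.le
    nlinarith
  · have : 4 * (c * l) ≤ l * l := by nlinarith
    nlinarith

theorem tis_nb_arc {n : ℕ} {T : PTree n} {x y : Fin n} (h : T.Nb x y) :
    T.Arc x y ∨ T.Arc y x := by
  rcases h with ⟨h0, hp⟩ | ⟨h0, hp⟩
  · rcases hs : T.sg y with _ | _
    · exact Or.inr (Or.inr ⟨h0, hp, hs⟩)
    · exact Or.inl (Or.inl ⟨h0, hp, hs⟩)
  · rcases hs : T.sg x with _ | _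
    · exact Or.inl (Or.inr ⟨h0, hp, hs⟩)
    · exact Or.inr (Or.inl ⟨h0, hp, hs⟩)

/-- a cut which is well separated gives the structure `TreeIS` -/
theorem tis_struct {n : ℕ} (T : PTree n) (kd : Bool → Bool → Bool) (side : Fin n → Bool)
    (Tc : Bool → Finset (Fin n)) (hT : TreeC T 8 kd side Tc) (M' : Finset (Fin n))
    (hsrc : ∀ x ∈ M', T.Src x) (hsep : ∀ a ∈ M', ∀ b ∈ M', a ≠ b → b ∉ T.ball 8 a) :
    TreeIS T kd side Tc (M'.filter fun x => ∀ a ∈ Tc true ∪ Tc false, x ∉ T.ball 4 a) := by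
  have b38 : ∀ a, T.ball 3 a ⊆ T.ball 8 a := fun a => T.ball_mono (by norm_num) a
  have b34 : ∀ a, T.ball 3 a ⊆ T.ball 4 a := fun a => T.ball_mono (by norm_num) a
  refine ⟨⟨hT.disj, fun a ha b hb hab hmem => hT.sep a ha b hb hab (b38 a hmem), hT.arc, hT.con⟩,
    ?_, ?_, ?_, ?_⟩
  · intro x hx
    exact hsrc x (mem_filter.1 hx).1
  · intro x hx y hy
    have hx' := (mem_filter.1 hx).2
    have hxT : x ∉ Tc true ∪ Tc false := fun h => hx' x h (T.self_mem_ball 4 x)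
    have hyT : y ∉ Tc true ∪ Tc false := fun h =>
      hx' y h (T.ball_mono (by norm_num : 1 ≤ 4) y hy.symm.mem_ball)
    rcases tis_nb_arc hy with h | h
    · rcases hT.arc x y h with h1 | h1 | h1
      · exact h1.symm
      · exact absurd h1 hxT
      · exact absurd h1 hyT
    · rcases hT.arc y x h with h1 | h1 | h1
      · exact h1
      · exact absurd h1 hyT
      · exact absurd h1 hxT
  · rw [Finset.disjoint_left]
    intro x hx h
    exact (mem_filter.1 hx).2 x h (T.self_mem_ball 4 x)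
  · intro a ha b hb hab hmem
    rcases mem_union.1 ha with ha | ha <;> rcases mem_union.1 hb with hb | hb
    · exact hT.sep a ha b hb hab (b38 a hmem)
    · exact (mem_filter.1 hb).2 a ha (b34 a hmem)
    · exact (mem_filter.1 ha).2 b hb (b34 b (PTree.mem_ball_comm.1 hmem))
    · exact hsep a (mem_filter.1 ha).1 b (mem_filter.1 hb).1 hab (b38 a hmem)

/-- only few elements are removed -/
theorem tis_count {n : ℕ} (Δ : ℕ) (T : PTree n) (hΔ : T.Deg Δ) (side : Fin n → Bool) (k : Bool)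
    (B M' : Finset (Fin n)) :
    (M'.filter fun v => side v = k).card ≤
      ((M'.filter fun x => ∀ a ∈ B, x ∉ T.ball 4 a).filter fun v => side v = k).card +
        B.card * (Δ + 2) ^ 4 := by
  have hsub : (M'.filter fun v => side v = k) ⊆
      ((M'.filter fun x => ∀ a ∈ B, x ∉ T.ball 4 a).filter fun v => side v = k) ∪
        B.biUnion fun a => T.ball 4 a := by
    intro x hx
    rw [mem_filter] at hx
    rw [mem_union, mem_filter, mem_filter, mem_biUnion]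
    by_cases h : ∃ a ∈ B, x ∈ T.ball 4 a
    · exact Or.inr h
    · push Not at h
      exact Or.inl ⟨⟨hx.1, h⟩, hx.2⟩
  refine (card_le_card hsub).trans ((card_union_le _ _).trans (Nat.add_le_add_left ?_ _))
  exact card_biUnion_le_card_mul _ _ _ fun a _ => T.card_ball hΔ 4 a

/-- TIS, from TC -/
theorem treeIS_of (hTC : tis_StTC) (Δ : ℕ) (η : ℝ) (hη : 0 < η) : ∃ (K : ℕ) (η' : ℝ), 0 < η' ∧
    ∀ (n : ℕ) (T : PTree n), T.Deg Δ → K ≤ n →
    η * (n : ℝ) ≤ ((univ.filter fun v => T.Src v).card : ℝ) →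
    ∀ kd : Bool → Bool → Bool, (∃ δ s, kd δ s = false) →
    ∀ m : ℤ, |(m : ℝ)| ≤ η' * (n : ℝ) →
    ∃ (side : Fin n → Bool) (Tc : Bool → Finset (Fin n)) (M : Finset (Fin n)),
      TreeIS T kd side Tc M ∧
      (∀ δ, (Tc δ).card ≤ K * (Nat.log 2 n + 1)) ∧
      |2 * ((univ.filter fun v => side v = true).card : ℤ) - n - m| ≤ K ∧
      ∀ k, η' * (n : ℝ) ≤ ((M.filter fun v => side v = k).card : ℝ) := by
  have hD : (0 : ℝ) < ((Δ : ℝ) + 2) ^ 8 := by positivity
  obtain ⟨K₁, η₁, hη₁, h⟩ := hTC Δ 8 (η / ((Δ : ℝ) + 2) ^ 8) (div_pos hη hD)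
  -- the constant in the removed part
  obtain ⟨c, hc⟩ := exists_nat_ge (2 * (2 * K₁ * ((Δ : ℝ) + 2) ^ 4) / η₁)
  refine ⟨max K₁ (4 * c ^ 2 + 1), η₁ / 2, by positivity, ?_⟩
  intro n T hT hn hsrc kd hkd m hm
  have hn1 : K₁ ≤ n := le_trans (le_max_left _ _) hn
  have hn2 : 4 * c ^ 2 + 1 ≤ n := le_trans (le_max_right _ _) hn
  obtain ⟨M', hM'S, hM'sep, hM'card⟩ := farset Δ 8 T hT (univ.filter fun v => T.Src v)
  have hM'1 : η / ((Δ : ℝ) + 2) ^ 8 * (n : ℝ) ≤ (M'.card : ℝ) := by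
    rw [div_mul_eq_mul_div, div_le_iff₀ hD]
    have h1 : ((univ.filter fun v => T.Src v).card : ℝ) ≤ ((Δ : ℝ) + 2) ^ 8 * M'.card := by
      exact_mod_cast hM'card
    calc η * (n : ℝ) ≤ _ := hsrc
      _ ≤ ((Δ : ℝ) + 2) ^ 8 * M'.card := h1
      _ = _ := by ring
  have hn0 : (0 : ℝ) ≤ n := Nat.cast_nonneg n
  obtain ⟨side, Tc, hTree, hTc, hbal, hk⟩ := h n T hT hn1 kd hkd m
    (hm.trans (by nlinarith)) M' hM'1
  refine ⟨side, Tc, _, tis_struct T kd side Tc hTree M'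
    (fun x hx => (mem_filter.1 (hM'S hx)).2) hM'sep, ?_, ?_, ?_⟩
  · intro δ
    exact (hTc δ).trans (Nat.mul_le_mul_right _ (le_max_left _ _))
  · refine hbal.trans ?_
    exact_mod_cast le_max_left _ _
  · intro k
    have h1 := tis_count Δ T hT side k (Tc true ∪ Tc false) M'
    have h2 : (Tc true ∪ Tc false).card ≤ 2 * (K₁ * (Nat.log 2 n + 1)) := by
      refine (card_union_le _ _).trans ?_
      have := hTc true
      have := hTc false
      omega
    have h3 := tis_log c n hn2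
    have h4 := hk k
    have h1' : ((M'.filter fun v => side v = k).card : ℝ) ≤
        (((M'.filter fun x => ∀ a ∈ Tc true ∪ Tc false, x ∉ T.ball 4 a).filter
          fun v => side v = k).card : ℝ) +
          ((Tc true ∪ Tc false).card : ℝ) * ((Δ : ℝ) + 2) ^ 4 := by exact_mod_cast h1
    have h2' : ((Tc true ∪ Tc false).card : ℝ) ≤ 2 * (K₁ * ((Nat.log 2 n : ℝ) + 1)) := by
      exact_mod_cast h2
    have h3' : (c : ℝ) * ((Nat.log 2 n : ℝ) + 1) ≤ n := by exact_mod_cast h3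
    have h5 : 2 * (K₁ * ((Nat.log 2 n : ℝ) + 1)) * ((Δ : ℝ) + 2) ^ 4 ≤ η₁ / 2 * n := by
      have h6 : 2 * (2 * K₁ * ((Δ : ℝ) + 2) ^ 4) ≤ c * η₁ := by
        rwa [div_le_iff₀ hη₁] at hc
      have h7 : (0 : ℝ) ≤ (Nat.log 2 n : ℝ) + 1 := by positivity
      have h8 : 2 * (2 * K₁ * ((Δ : ℝ) + 2) ^ 4) * ((Nat.log 2 n : ℝ) + 1) ≤
          c * η₁ * ((Nat.log 2 n : ℝ) + 1) := mul_le_mul_of_nonneg_right h6 h7
      have h9 : c * η₁ * ((Nat.log 2 n : ℝ) + 1) ≤ η₁ * n := by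
        calc c * η₁ * ((Nat.log 2 n : ℝ) + 1) = η₁ * (c * ((Nat.log 2 n : ℝ) + 1)) := by ring
          _ ≤ η₁ * n := mul_le_mul_of_nonneg_left h3' hη₁.le
      linarith
    have h10 : ((Tc true ∪ Tc false).card : ℝ) * ((Δ : ℝ) + 2) ^ 4 ≤ η₁ / 2 * n := by
      refine le_trans (mul_le_mul_of_nonneg_right h2' (by positivity)) h5
    linarith

end

end OT
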